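import Mathlib

/-!
Schatten norms of real square matrices, operator norms between Schatten classes and
approximation numbers of the identity map.
-/

set_option autoImplicit false

open scoped ENNReal

namespace Pool.Agent.MP_6a785f_an

/-- The Schatten `p`-norm of a real `N × N` matrix: the `ℓ_p` norm of its `N` singular values. -/
noncomputable def schattenNorm {N : ℕ} (p : ℝ) (A : Matrix (Fin N) (Fin N) ℝ) : ℝ :=
  (∑ j : Fin N, (Matrix.toEuclideanLin A).singularValues j ^ p) ^ (1 / p)

/-- The operator norm of a linear map `T : S_p^N → S_q^N`. -/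
noncomputable def schattenOpNorm {N : ℕ} (p q : ℝ)
    (T : Matrix (Fin N) (Fin N) ℝ →ₗ[ℝ] Matrix (Fin N) (Fin N) ℝ) : ℝ≥0∞ :=
  ⨆ (A : Matrix (Fin N) (Fin N) ℝ) (_ : schattenNorm p A ≤ 1),
    ENNReal.ofReal (schattenNorm q (T A))

/-- The `n`-th approximation number of the identity map `S_p^N → S_q^N`. -/
noncomputable def approxNumberId (N : ℕ) (p q : ℝ) (n : ℕ) : ℝ≥0∞ :=
  ⨅ (S : Matrix (Fin N) (Fin N) ℝ →ₗ[ℝ] Matrix (Fin N) (Fin N) ℝ)
    (_ : Module.finrank ℝ (LinearMap.range S) < n), schattenOpNorm p q (LinearMap.id - S)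

end Pool.Agent.MP_6a785f_an
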