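import Mathlib

/-!
Derandomised choice of signs and a Johnson-Lindenstrauss type lemma near full dimension.
-/

set_option autoImplicit false

open Finset Real

namespace Pool.Agent.MP_6a785f_an

lemma avg_sign (β y a : ℝ) :
    exp (β * (y + a) ^ 2) + exp (β * (y - a) ^ 2)
      ≤ 2 * exp ((β + 2 * β ^ 2 * a ^ 2) * y ^ 2 + β * a ^ 2) := by
  have h1 : exp (β * (y + a) ^ 2) = exp (β * y ^ 2 + β * a ^ 2) * exp (2 * β * a * y) := by
    rw [← exp_add]; congr 1; ring
  have h2 : exp (β * (y - a) ^ 2) = exp (β * y ^ 2 + β * a ^ 2) * exp (-(2 * β * a * y)) := by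
    rw [← exp_add]; congr 1; ring
  have h3 : exp ((β + 2 * β ^ 2 * a ^ 2) * y ^ 2 + β * a ^ 2)
      = exp (β * y ^ 2 + β * a ^ 2) * exp ((2 * β * a * y) ^ 2 / 2) := by
    rw [← exp_add]; congr 1; ring
  have h4 := Real.cosh_le_exp_half_sq (2 * β * a * y)
  rw [Real.cosh_eq] at h4
  rw [h1, h2, h3]
  have := exp_pos (β * y ^ 2 + β * a ^ 2)
  nlinarith

lemma exists_sign {ι : Type} [Fintype ι] (w β y a : ι → ℝ) (hw : ∀ i, 0 ≤ w i) :
    ∃ e : ℝ, e ^ 2 = 1 ∧ ∑ i, w i * exp (β i * (y i + e * a i) ^ 2)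
      ≤ ∑ i, w i * exp ((β i + 2 * β i ^ 2 * a i ^ 2) * y i ^ 2 + β i * a i ^ 2) := by
  have h : ∑ i, w i * exp (β i * (y i + 1 * a i) ^ 2)
      + ∑ i, w i * exp (β i * (y i + (-1) * a i) ^ 2)
      ≤ 2 * ∑ i, w i * exp ((β i + 2 * β i ^ 2 * a i ^ 2) * y i ^ 2 + β i * a i ^ 2) := by
    rw [← sum_add_distrib, mul_sum]
    refine sum_le_sum fun i _ => ?_
    have := avg_sign (β i) (y i) (a i)
    have e1 : y i + 1 * a i = y i + a i := by ring
    have e2 : y i + (-1) * a i = y i - a i := by ring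
    rw [e1, e2]
    nlinarith [hw i]
  by_cases h1 : ∑ i, w i * exp (β i * (y i + 1 * a i) ^ 2)
      ≤ ∑ i, w i * exp ((β i + 2 * β i ^ 2 * a i ^ 2) * y i ^ 2 + β i * a i ^ 2)
  · exact ⟨1, by norm_num, h1⟩
  · exact ⟨-1, by norm_num, by linarith [not_le.mp h1]⟩

lemma exists_signs {ι : Type} [Fintype ι] (α : ι → ℝ) (n : ℕ) :
    ∀ (w y : ι → ℝ) (a : ι → Fin n → ℝ), (∀ i, 0 ≤ w i) →
      (∀ i, 8 * |α i| * ∑ j, a i j ^ 2 ≤ 1) →
      ∃ e : Fin n → ℝ, (∀ j, e j ^ 2 = 1) ∧
        ∑ i, w i * exp (α i * (y i + ∑ j, e j * a i j) ^ 2)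
          ≤ ∑ i, w i * exp ((α i + 8 * α i ^ 2 * ∑ j, a i j ^ 2) * y i ^ 2
              + α i * (∑ j, a i j ^ 2) + 8 * α i ^ 2 * (∑ j, a i j ^ 2) ^ 2) := by
  induction n with
  | zero =>
    intro w y a _ _
    exact ⟨fun j => 1, fun j => by norm_num, by simp⟩
  | succ n ih =>
    intro w y a hw ha
    set s : ι → ℝ := fun i => ∑ j : Fin n, a i j.succ ^ 2 with hs
    have hs0 : ∀ i, 0 ≤ s i := fun i => sum_nonneg fun j _ => sq_nonneg _
    have hsum : ∀ i, ∑ j, a i j ^ 2 = a i 0 ^ 2 + s i := fun i => Fin.sum_univ_succ _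
    set β : ι → ℝ := fun i => α i + 8 * α i ^ 2 * s i with hβ
    obtain ⟨e0, he0, h0⟩ := exists_sign
      (fun i => w i * exp (α i * s i + 8 * α i ^ 2 * s i ^ 2)) β y (fun i => a i 0)
      (fun i => mul_nonneg (hw i) (exp_pos _).le)
    have ha' : ∀ i, 8 * |α i| * s i ≤ 1 := fun i => by
      have := ha i
      rw [hsum] at this
      nlinarith [abs_nonneg (α i), sq_nonneg (a i 0)]
    obtain ⟨e, he, h1⟩ := ih w (fun i => y i + e0 * a i 0) (fun i j => a i j.succ) hw ha'
    refine ⟨Fin.cons e0 e, ?_, ?_⟩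
    · intro j
      refine Fin.cases ?_ (fun j => ?_) j
      · simpa using he0
      · simpa using he j
    · calc ∑ i, w i * exp (α i * (y i + ∑ j, (Fin.cons e0 e : Fin (n + 1) → ℝ) j * a i j) ^ 2)
          = ∑ i, w i * exp (α i * ((y i + e0 * a i 0) + ∑ j, e j * a i j.succ) ^ 2) := by
            refine sum_congr rfl fun i _ => ?_
            rw [Fin.sum_univ_succ]
            simp only [Fin.cons_zero, Fin.cons_succ, add_assoc]
        _ ≤ _ := h1
        _ = ∑ i, w i * exp (α i * s i + 8 * α i ^ 2 * s i ^ 2)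
              * exp (β i * (y i + e0 * a i 0) ^ 2) := by
            refine sum_congr rfl fun i _ => ?_
            rw [mul_assoc (w i), ← exp_add]
            congr 2
            simp only [hβ, hs]
            ring
        _ ≤ _ := h0
        _ ≤ _ := by
            refine sum_le_sum fun i _ => ?_
            rw [mul_assoc (w i), ← exp_add]
            refine mul_le_mul_of_nonneg_left (exp_le_exp.mpr ?_) (hw i)
            rw [hsum]
            have hb : β i ^ 2 ≤ 4 * α i ^ 2 := by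
              have h8 := ha' i
              have h9 : 0 ≤ 8 * |α i| * s i := by have := hs0 i; positivity
              have e1 : β i = α i * (1 + 8 * α i * s i) := by simp only [hβ]; ring
              have e2 : |8 * α i * s i| ≤ 1 := by
                rw [abs_mul, abs_mul, abs_of_nonneg (hs0 i)]
                simpa using h8
              have e3 : (1 + 8 * α i * s i) ^ 2 ≤ 4 := by
                have := abs_le.mp e2
                nlinarith
              rw [e1, mul_pow]
              nlinarith [sq_nonneg (α i)]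
            have hy : 0 ≤ a i 0 ^ 2 * y i ^ 2 := by positivity
            have h5 : 2 * β i ^ 2 * a i 0 ^ 2 * y i ^ 2 ≤ 8 * α i ^ 2 * a i 0 ^ 2 * y i ^ 2 := by
              nlinarith
            have h6 : 0 ≤ α i ^ 2 * a i 0 ^ 2 * (a i 0 ^ 2 + s i) := by
              have := hs0 i; positivity
            simp only [hβ] at h5 ⊢
            nlinarith

end Pool.Agent.MP_6a785f_an
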