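import Mathlib
import Pool.Agent.MP_6a785f_an.Signs

/-!
A Johnson-Lindenstrauss type lemma near full dimension.
-/

set_option autoImplicit false

open Finset Real Module
open scoped InnerProductSpace

namespace Pool.Agent.MP_6a785f_an

lemma step {V : Type} [NormedAddCommGroup V] [InnerProductSpace ℝ V] [FiniteDimensional ℝ V]
    (d : ℕ) (hV : finrank ℝ V = d + 1) {ι : Type} [Fintype ι] (w α : ι → ℝ) (v : ι → V)
    (hw : ∀ i, 0 ≤ w i) (hα : ∀ i, 8 * |α i| * (‖v i‖ ^ 2 / (d + 1)) ≤ 1) :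
    ∃ B : V →ₗ[ℝ] EuclideanSpace ℝ (Fin d), (∀ x, ‖B x‖ ^ 2 ≤ ‖x‖ ^ 2) ∧
      ∑ i, w i * exp (α i * (‖v i‖ ^ 2 - ‖B (v i)‖ ^ 2))
        ≤ ∑ i, w i * exp (α i * (‖v i‖ ^ 2 / (d + 1)) + 8 * α i ^ 2 * (‖v i‖ ^ 2 / (d + 1)) ^ 2) := by
  set f : OrthonormalBasis (Fin (d + 1)) ℝ V := (stdOrthonormalBasis ℝ V).reindex (finCongr hV)
  have hD : (0 : ℝ) < d + 1 := by positivity
  set t : ℝ := (√((d : ℝ) + 1))⁻¹ with ht
  have ht2 : t ^ 2 = 1 / (d + 1) := by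
    rw [ht, inv_pow, sq_sqrt hD.le, one_div]
  have hs : ∀ i, ∑ j, (t * ⟪f j, v i⟫_ℝ) ^ 2 = ‖v i‖ ^ 2 / (d + 1) := by
    intro i
    simp_rw [mul_pow]
    rw [← mul_sum, f.sum_sq_inner_right, ht2]
    ring
  obtain ⟨e, he, h⟩ := exists_signs α (d + 1) w (fun _ => 0) (fun i j => t * ⟪f j, v i⟫_ℝ) hw
    (fun i => by rw [hs]; exact hα i)
  set u : V := ∑ j, (e j * t) • f j with hu
  have hfu : ∀ j, ⟪f j, u⟫_ℝ = e j * t := fun j => by
    rw [hu]; exact f.orthonormal.inner_right_fintype _ j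
  have hu1 : ‖u‖ = 1 := by
    have : ‖u‖ ^ 2 = 1 := by
      rw [← f.sum_sq_inner_right]
      simp_rw [hfu, mul_pow, he, one_mul, ht2]
      simp
      field_simp
    nlinarith [norm_nonneg u]
  have hon : Orthonormal ℝ (({0} : Set (Fin (d + 1))).domRestrict (fun _ => u)) := by
    constructor
    · intro i; exact hu1
    · intro i j hij
      exact absurd (Subsingleton.elim i j) hij
  obtain ⟨b, hb⟩ := Orthonormal.exists_orthonormalBasis_extension_of_card_eq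
    (by simpa using hV) hon
  have hb0 : b 0 = u := hb 0 rfl
  let B : V →ₗ[ℝ] EuclideanSpace ℝ (Fin d) :=
    { toFun := fun x => WithLp.toLp 2 (fun j => ⟪b j.succ, x⟫_ℝ)
      map_add' := by intro x y; ext j; simp [inner_add_right]
      map_smul' := by intro c x; ext j; simp [inner_smul_right] }
  have hB : ∀ x, ‖x‖ ^ 2 - ‖B x‖ ^ 2 = ⟪u, x⟫_ℝ ^ 2 := by
    intro x
    rw [← b.sum_sq_inner_right x, Fin.sum_univ_succ, EuclideanSpace.real_norm_sq_eq, hb0]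
    simp [B]
  refine ⟨B, fun x => by nlinarith [hB x, sq_nonneg ⟪u, x⟫_ℝ], ?_⟩
  simp_rw [hs] at h
  simp_rw [hB]
  convert h using 5 with i _ i _
  · rw [hu, sum_inner, zero_add]
    congr 1
    refine sum_congr rfl fun j _ => ?_
    rw [real_inner_smul_left]; ring
  · ring

lemma jl_potential (d : ℕ) (hd : 1 ≤ d) {ι : Type} [Fintype ι] (l : ι → ℝ)
    (hl : ∀ i, 8 * |l i| ≤ (d : ℝ) ^ 2) (m : ℕ) :
    ∀ (V : Type) [NormedAddCommGroup V] [InnerProductSpace ℝ V] [FiniteDimensional ℝ V],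
      finrank ℝ V = d + m → ∀ (w : ι → ℝ) (x : ι → V), (∀ i, 0 ≤ w i) → (∀ i, ‖x i‖ ≤ 1) →
      ∃ A : V →ₗ[ℝ] EuclideanSpace ℝ (Fin d), (∀ y, ‖A y‖ ^ 2 ≤ ‖y‖ ^ 2) ∧
        ∑ i, w i * exp (l i * (‖A (x i)‖ ^ 2 / d - ‖x i‖ ^ 2 / (d + m)))
          ≤ ∑ i, w i * exp (8 * m * l i ^ 2 / (d : ℝ) ^ 4) := by
  induction m with
  | zero =>
    intro V _ _ _ hV w x hw hx
    set f : OrthonormalBasis (Fin d) ℝ V := (stdOrthonormalBasis ℝ V).reindex (finCongr hV)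
    refine ⟨f.repr.toLinearEquiv.toLinearMap, fun y => by simp, by simp⟩
  | succ m ih =>
    intro V _ _ _ hV w x hw hx
    have hd0 : (1 : ℝ) ≤ d := by exact_mod_cast hd
    set D : ℝ := (d : ℝ) + m with hD
    have hDd : (d : ℝ) ≤ D := by rw [hD]; linarith [(Nat.cast_nonneg m : (0 : ℝ) ≤ m)]
    have hD0 : 0 < D := by linarith
    have hcast : ((d + m : ℕ) : ℝ) = D := by push_cast; rfl
    have hx2 : ∀ i, ‖x i‖ ^ 2 ≤ 1 := fun i => by nlinarith [hx i, norm_nonneg (x i)]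
    have hs : ∀ i, ‖x i‖ ^ 2 / (D + 1) ≤ 1 / d := fun i => by
      rw [div_le_div_iff₀ (by linarith) (by linarith)]
      nlinarith [hx2 i, sq_nonneg ‖x i‖]
    have hs0 : ∀ i, 0 ≤ ‖x i‖ ^ 2 / (D + 1) := fun i => by positivity
    have habs : ∀ i, |-(l i) / D| ≤ |l i| / d := fun i => by
      rw [abs_div, abs_neg, abs_of_pos hD0]
      exact div_le_div_of_nonneg_left (abs_nonneg _) (by linarith) hDd
    have hkey : ∀ i, |-(l i) / D| * (‖x i‖ ^ 2 / (D + 1)) ≤ |l i| / (d : ℝ) ^ 2 := fun i => by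
      calc |-(l i) / D| * (‖x i‖ ^ 2 / (D + 1)) ≤ (|l i| / d) * (1 / d) :=
            mul_le_mul (habs i) (hs i) (hs0 i) (by positivity)
        _ = |l i| / (d : ℝ) ^ 2 := by field_simp
    obtain ⟨B, hB, h1⟩ := step (d + m) hV
      (fun i => w i * exp (8 * m * l i ^ 2 / (d : ℝ) ^ 4 + l i / D * (‖x i‖ ^ 2 / (D + 1))))
      (fun i => -(l i) / D) x (fun i => mul_nonneg (hw i) (exp_pos _).le) (fun i => by
        rw [hcast, mul_assoc]
        have := hkey i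
        have h2 : |l i| / (d : ℝ) ^ 2 ≤ 1 / 8 := by
          rw [div_le_div_iff₀ (by positivity) (by norm_num)]
          linarith [hl i]
        linarith)
    rw [hcast] at h1
    obtain ⟨A, hA, h2⟩ := ih (EuclideanSpace ℝ (Fin (d + m))) (by simp)
      (fun i => w i * exp (l i * (‖B (x i)‖ ^ 2 / D - ‖x i‖ ^ 2 / (D + 1)))) (fun i => B (x i))
      (fun i => mul_nonneg (hw i) (exp_pos _).le)
      (fun i => by nlinarith [hB (x i), hx2 i, norm_nonneg (B (x i))])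
    refine ⟨A ∘ₗ B, fun y => (hA _).trans (hB _), ?_⟩
    calc ∑ i, w i * exp (l i * (‖(A ∘ₗ B) (x i)‖ ^ 2 / d - ‖x i‖ ^ 2 / (d + (m + 1 : ℕ))))
        = ∑ i, w i * exp (l i * (‖B (x i)‖ ^ 2 / D - ‖x i‖ ^ 2 / (D + 1)))
            * exp (l i * (‖A (B (x i))‖ ^ 2 / d - ‖B (x i)‖ ^ 2 / D)) := by
          refine sum_congr rfl fun i _ => ?_
          rw [mul_assoc (w i), ← exp_add]
          congr 2
          push_cast
          simp only [Function.comp_apply, hD]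
          ring
      _ ≤ _ := h2
      _ = ∑ i, w i * exp (8 * m * l i ^ 2 / (d : ℝ) ^ 4 + l i / D * (‖x i‖ ^ 2 / (D + 1)))
            * exp (-(l i) / D * (‖x i‖ ^ 2 - ‖B (x i)‖ ^ 2)) := by
          refine sum_congr rfl fun i _ => ?_
          rw [mul_assoc (w i), mul_assoc (w i), ← exp_add, ← exp_add]
          congr 2
          field_simp
          ring
      _ ≤ _ := h1
      _ ≤ _ := by
          refine sum_le_sum fun i _ => ?_
          rw [mul_assoc (w i), ← exp_add]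
          refine mul_le_mul_of_nonneg_left (exp_le_exp.mpr ?_) (hw i)
          have h3 : (-(l i) / D) ^ 2 * (‖x i‖ ^ 2 / (D + 1)) ^ 2 ≤ l i ^ 2 / (d : ℝ) ^ 4 := by
            have h4 := hkey i
            have h5 : 0 ≤ |-(l i) / D| * (‖x i‖ ^ 2 / (D + 1)) := by have := hs0 i; positivity
            have h6 := pow_le_pow_left₀ h5 h4 2
            rw [mul_pow, sq_abs, div_pow (|l i|), sq_abs] at h6
            have h7 : ((d : ℝ) ^ 2) ^ 2 = (d : ℝ) ^ 4 := by ring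
            rwa [h7] at h6
          have h7 : 8 * ((m + 1 : ℕ) : ℝ) * l i ^ 2 / (d : ℝ) ^ 4
              = 8 * m * l i ^ 2 / (d : ℝ) ^ 4 + 8 * (l i ^ 2 / (d : ℝ) ^ 4) := by
            push_cast; ring
          rw [h7]
          have h8 : l i / D * (‖x i‖ ^ 2 / (D + 1)) + -(l i) / D * (‖x i‖ ^ 2 / (D + 1)) = 0 := by
            ring
          nlinarith

lemma jl (d m : ℕ) (hd : 1 ≤ d) (hm : 1 ≤ m) {ι : Type} [Fintype ι] (L : ι → ℝ)
    (hL : ∀ i, 0 < L i) (hsum : ∑ i, 2 * exp (-L i) ≤ 1)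
    (V : Type) [NormedAddCommGroup V] [InnerProductSpace ℝ V] [FiniteDimensional ℝ V]
    (hV : finrank ℝ V = d + m) (x : ι → V) (hx : ∀ i, ‖x i‖ ≤ 1) :
    ∃ A : V →ₗ[ℝ] EuclideanSpace ℝ (Fin d), (∀ y, ‖A y‖ ^ 2 ≤ ‖y‖ ^ 2) ∧
      ∀ i, |‖A (x i)‖ ^ 2 / d - ‖x i‖ ^ 2 / (d + m)|
        ≤ (8 * L i + 9 * (√m * √(L i))) / (d : ℝ) ^ 2 := by
  have hd0 : (1 : ℝ) ≤ d := by exact_mod_cast hd
  have hm0 : (1 : ℝ) ≤ m := by exact_mod_cast hm
  have hsm : 0 < √(m : ℝ) := sqrt_pos.mpr (by linarith)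
  have hsL : ∀ i, 0 < √(L i) := fun i => sqrt_pos.mpr (hL i)
  set θ : ι → ℝ := fun i => √(L i) / (√(L i) + √m) with hθ
  have hθ0 : ∀ i, 0 < θ i := fun i => by have := hsL i; simp only [hθ]; positivity
  have hθ1 : ∀ i, θ i ≤ 1 := fun i => by
    have := hsL i
    simp only [hθ]
    rw [div_le_one (by positivity)]
    linarith
  set l : ι × Bool → ℝ := fun i => (if i.2 then 1 else -1) * ((d : ℝ) ^ 2 / 8 * θ i.1) with hl
  have hl2 : ∀ i, l i ^ 2 = ((d : ℝ) ^ 2 / 8 * θ i.1) ^ 2 := fun i => by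
    simp only [hl]; split_ifs <;> ring
  obtain ⟨A, hA, h⟩ := jl_potential d hd l (fun i => by
      have h1 : |l i| = (d : ℝ) ^ 2 / 8 * θ i.1 := by
        rw [← sqrt_sq_eq_abs, hl2, sqrt_sq (by have := hθ0 i.1; positivity)]
      rw [h1]
      nlinarith [hθ1 i.1, sq_nonneg (d : ℝ)]) m V hV
    (fun i => exp (-L i.1 - 8 * m * l i ^ 2 / (d : ℝ) ^ 4)) (fun i => x i.1)
    (fun i => (exp_pos _).le) (fun i => hx i.1)
  refine ⟨A, hA, fun i => ?_⟩
  have hR : ∑ i : ι × Bool, exp (-L i.1 - 8 * m * l i ^ 2 / (d : ℝ) ^ 4)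
      * exp (8 * m * l i ^ 2 / (d : ℝ) ^ 4) ≤ 1 := by
    simp_rw [← exp_add, sub_add_cancel]
    rw [Fintype.sum_prod_type]
    simpa [two_mul] using hsum
  set Δ := ‖A (x i)‖ ^ 2 / d - ‖x i‖ ^ 2 / (d + m) with hΔ
  have hb : ∀ b : Bool, l (i, b) * Δ ≤ L i + 8 * m * l (i, b) ^ 2 / (d : ℝ) ^ 4 := by
    intro b
    have h1 := (single_le_sum (f := fun i : ι × Bool =>
      exp (-L i.1 - 8 * m * l i ^ 2 / (d : ℝ) ^ 4)
        * exp (l i * (‖A (x i.1)‖ ^ 2 / d - ‖x i.1‖ ^ 2 / (d + m))))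
      (fun i _ => by positivity) (mem_univ (i, b))).trans (h.trans hR)
    rw [← exp_add, exp_le_one_iff] at h1
    simp only at h1
    linarith
  have h1 := hb true
  have h2 := hb false
  rw [hl2] at h1 h2
  simp only [hl, if_true, Bool.false_eq_true, if_false] at h1 h2
  set τ := (d : ℝ) ^ 2 / 8 * θ i with hτ
  have hτ0 : 0 < τ := by have := hθ0 i; positivity
  have h3 : τ * |Δ| ≤ L i + 8 * m * τ ^ 2 / (d : ℝ) ^ 4 := by
    rcases abs_cases Δ with h | h <;> rw [h.1] <;> linarith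
  have hLs : √(L i) ^ 2 = L i := sq_sqrt (hL i).le
  have hms : √(m : ℝ) ^ 2 = m := sq_sqrt (by linarith)
  have h4 : L i + 8 * m * τ ^ 2 / (d : ℝ) ^ 4
      ≤ τ * ((8 * L i + 9 * (√m * √(L i))) / (d : ℝ) ^ 2) := by
    have ha := hsL i
    set a := √(L i)
    set b := √(m : ℝ)
    have hab : a + b ≠ 0 := by positivity
    rw [← hLs, ← hms, hτ]
    simp only [hθ]
    have e1 : (d : ℝ) ^ 2 / 8 * (a / (a + b)) * ((8 * a ^ 2 + 9 * (b * a)) / (d : ℝ) ^ 2)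
        = a ^ 2 + a ^ 2 * b / (8 * (a + b)) := by
      field_simp; ring
    have e2 : 8 * b ^ 2 * ((d : ℝ) ^ 2 / 8 * (a / (a + b))) ^ 2 / (d : ℝ) ^ 4
        = a ^ 2 * b / (8 * (a + b)) * (b / (a + b)) := by
      field_simp
    rw [e1, e2]
    have e3 : b / (a + b) ≤ 1 := by rw [div_le_one (by positivity)]; linarith
    have e4 : 0 ≤ a ^ 2 * b / (8 * (a + b)) := by positivity
    nlinarith
  exact le_of_mul_le_mul_left (h3.trans h4) hτ0

end Pool.Agent.MP_6a785f_an
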