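import Mathlib

/-!
One-half nets of unit balls of finite-dimensional normed spaces.
-/

set_option autoImplicit false

open Finset Real Module

namespace Pool.Agent.MP_6a785f_an

/-- A finite subset of the unit ball that norms linear functionals up to a factor two. -/
def IsNet {E : Type} [NormedAddCommGroup E] [NormedSpace ℝ E] (s : Finset E) : Prop :=
  (∀ c ∈ s, ‖c‖ ≤ 1) ∧
    ∀ (f : E →ₗ[ℝ] ℝ) (K : ℝ), (∀ c ∈ s, |f c| ≤ K) → ∀ x, ‖x‖ ≤ 1 → |f x| ≤ 2 * K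

lemma exists_net (E : Type) [NormedAddCommGroup E] [NormedSpace ℝ E] [FiniteDimensional ℝ E] :
    ∃ s : Finset E, s.card ≤ 5 ^ finrank ℝ E ∧ IsNet s := by
  classical
  let P : Finset E → Prop := fun s =>
    (∀ c ∈ s, ‖c‖ ≤ 2) ∧ ∀ c ∈ s, ∀ d ∈ s, c ≠ d → 1 ≤ ‖c - d‖
  have hbd : ∀ s, P s → s.card ≤ 5 ^ finrank ℝ E := fun s hs =>
    Besicovitch.card_le_of_separated s hs.1 hs.2
  obtain ⟨s, hs, hmax⟩ : ∃ s, P s ∧ ∀ t, P t → t.card ≤ s.card := by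
    let Q : ℕ → Prop := fun n => ∃ s, P s ∧ s.card = n
    have h0 : Q 0 := ⟨∅, ⟨by simp, by simp⟩, rfl⟩
    obtain ⟨s, hs, hc⟩ := Nat.findGreatest_spec (P := Q) (Nat.zero_le (5 ^ finrank ℝ E)) h0
    refine ⟨s, hs, fun t ht => ?_⟩
    rw [hc]
    exact Nat.le_findGreatest (hbd t ht) ⟨t, ht, rfl⟩
  have hcov : ∀ x : E, ‖x‖ ≤ 2 → ∃ c ∈ s, ‖x - c‖ ≤ 1 := by
    intro x hx
    by_contra hcon
    push Not at hcon
    have hxs : x ∉ s := fun h => by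
      have := hcon x h
      simp at this
      linarith
    have hP : P (insert x s) := by
      constructor
      · intro c hc
        rcases mem_insert.mp hc with rfl | hc
        · exact hx
        · exact hs.1 c hc
      · intro c hc d hd hcd
        rcases mem_insert.mp hc with hcx | hc' <;> rcases mem_insert.mp hd with hdx | hd'
        · exact absurd (hcx.trans hdx.symm) hcd
        · rw [hcx]; exact (hcon d hd').le
        · rw [hdx, norm_sub_rev]; exact (hcon c hc').le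
        · exact hs.2 c hc' d hd' hcd
    have := hmax _ hP
    rw [card_insert_of_notMem hxs] at this
    omega
  refine ⟨s.image (fun c => (1 / 2 : ℝ) • c), card_image_le.trans (hbd s hs), ?_, ?_⟩
  · intro c hc
    obtain ⟨c', hc', rfl⟩ := mem_image.mp hc
    rw [norm_smul]
    have := hs.1 c' hc'
    norm_num
    linarith
  · intro f K hK
    set F := LinearMap.toContinuousLinearMap f with hF
    have hFf : ∀ x, F x = f x := fun x => rfl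
    have h1 : ∀ x : E, ‖x‖ ≤ 1 → |f x| ≤ K + ‖F‖ / 2 := by
      intro x hx
      obtain ⟨c, hc, hxc⟩ := hcov ((2 : ℝ) • x) (by rw [norm_smul]; norm_num; linarith)
      have h2 := hK _ (mem_image_of_mem _ hc)
      have h3 : x = (1 / 2 : ℝ) • c + (1 / 2 : ℝ) • ((2 : ℝ) • x - c) := by
        rw [← smul_add, add_sub_cancel, smul_smul]; norm_num
      have h4 : |f ((1 / 2 : ℝ) • ((2 : ℝ) • x - c))| ≤ ‖F‖ / 2 := by
        have := F.le_opNorm ((1 / 2 : ℝ) • ((2 : ℝ) • x - c))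
        rw [hFf, Real.norm_eq_abs, norm_smul] at this
        refine this.trans ?_
        norm_num
        nlinarith [norm_nonneg F]
      rw [h3, map_add]
      exact (abs_add_le _ _).trans (add_le_add h2 h4)
    have h0 : 0 ≤ K + ‖F‖ / 2 := (abs_nonneg _).trans (h1 0 (by simp))
    have h2 : ‖F‖ ≤ K + ‖F‖ / 2 :=
      ContinuousLinearMap.opNorm_le_of_unit_norm h0 (fun x hx => h1 x hx.le)
    intro x hx
    linarith [h1 x hx]

lemma four_linear {E₁ E₂ E₃ E₄ : Type} [NormedAddCommGroup E₁] [NormedSpace ℝ E₁]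
    [NormedAddCommGroup E₂] [NormedSpace ℝ E₂] [NormedAddCommGroup E₃] [NormedSpace ℝ E₃]
    [NormedAddCommGroup E₄] [NormedSpace ℝ E₄] {H : Type} [AddCommGroup H] [Module ℝ H]
    (μ : E₁ →ₗ[ℝ] E₂ →ₗ[ℝ] H) (ν : E₃ →ₗ[ℝ] E₄ →ₗ[ℝ] H) (Φ : H →ₗ[ℝ] H →ₗ[ℝ] ℝ)
    {s₁ : Finset E₁} {s₂ : Finset E₂} {s₃ : Finset E₃} {s₄ : Finset E₄}
    (h₁ : IsNet s₁) (h₂ : IsNet s₂) (h₃ : IsNet s₃) (h₄ : IsNet s₄) (K : ℝ)
    (hK : ∀ a ∈ s₁, ∀ b ∈ s₂, ∀ c ∈ s₃, ∀ d ∈ s₄, |Φ (μ a b) (ν c d)| ≤ K)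
    (a : E₁) (b : E₂) (c : E₃) (d : E₄) (ha : ‖a‖ ≤ 1) (hb : ‖b‖ ≤ 1) (hc : ‖c‖ ≤ 1)
    (hd : ‖d‖ ≤ 1) : |Φ (μ a b) (ν c d)| ≤ 16 * K := by
  have k1 : ∀ a ∈ s₁, ∀ b ∈ s₂, ∀ c ∈ s₃, |Φ (μ a b) (ν c d)| ≤ 2 * K := fun a ha b hb c hc =>
    h₄.2 (Φ (μ a b) ∘ₗ ν c) K (fun d hd => hK a ha b hb c hc d hd) d hd
  have k2 : ∀ a ∈ s₁, ∀ b ∈ s₂, |Φ (μ a b) (ν c d)| ≤ 2 * (2 * K) := fun a ha b hb =>
    h₃.2 (Φ (μ a b) ∘ₗ ν.flip d) _ (fun c hc => k1 a ha b hb c hc) c hc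
  have k3 : ∀ a ∈ s₁, |Φ (μ a b) (ν c d)| ≤ 2 * (2 * (2 * K)) := fun a ha =>
    h₂.2 (Φ.flip (ν c d) ∘ₗ μ a) _ (fun b hb => k2 a ha b hb) b hb
  have k4 : |Φ (μ a b) (ν c d)| ≤ 2 * (2 * (2 * (2 * K))) :=
    h₁.2 (Φ.flip (ν c d) ∘ₗ μ.flip b) _ (fun a ha => k3 a ha) a ha
  linarith

end Pool.Agent.MP_6a785f_an
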