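import Mathlib
import Pool.Agent.MP_6a785f_an.JL
import Pool.Agent.MP_6a785f_an.Net

/-!
The bilinear estimate on low-rank matrices.
-/

set_option autoImplicit false

open Finset Real Module
open scoped InnerProductSpace

namespace Pool.Agent.MP_6a785f_an

abbrev Ev (n : ℕ) := EuclideanSpace ℝ (Fin n)

abbrev HS (N r : ℕ) := PiLp 2 (fun _ : Fin N => Ev r)

/-- The product of an operator `U` with a family `V` of vectors. -/
noncomputable def mulUV (N r : ℕ) : (Ev r →L[ℝ] Ev N) →ₗ[ℝ] HS N r →ₗ[ℝ] HS N N :=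
  LinearMap.mk₂ ℝ (fun U V => WithLp.toLp 2 (fun b => U (V b)))
    (by intro U U' V; ext b a; simp) (by intro c U V; ext b a; simp)
    (by intro U V V'; ext b a; simp) (by intro c U V; ext b a; simp)

lemma mulUV_apply {N r : ℕ} (U : Ev r →L[ℝ] Ev N) (V : HS N r) (b : Fin N) :
    mulUV N r U V b = U (V b) := rfl

lemma norm_mulUV_le {N r : ℕ} (U : Ev r →L[ℝ] Ev N) (V : HS N r) (hU : ‖U‖ ≤ 1) (hV : ‖V‖ ≤ 1) :
    ‖mulUV N r U V‖ ≤ 1 := by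
  have h : ‖mulUV N r U V‖ ^ 2 ≤ ‖V‖ ^ 2 := by
    rw [PiLp.norm_sq_eq_of_L2, PiLp.norm_sq_eq_of_L2]
    refine sum_le_sum fun b _ => ?_
    rw [mulUV_apply]
    have h1 := U.le_opNorm (V b)
    have h2 : ‖U (V b)‖ ≤ ‖V b‖ := h1.trans (by nlinarith [norm_nonneg (V b)])
    exact pow_le_pow_left₀ (norm_nonneg _) h2 2
  nlinarith [norm_nonneg (mulUV N r U V), norm_nonneg V]

lemma finrank_HS (N r : ℕ) : finrank ℝ (HS N r) = N * r := by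
  rw [(WithLp.linearEquiv 2 ℝ (Fin N → Ev r)).finrank_eq, Module.finrank_pi_fintype]
  simp

lemma finrank_CLM (N r : ℕ) : finrank ℝ (Ev r →L[ℝ] Ev N) = N * r := by
  rw [← (LinearMap.toContinuousLinearMap (𝕜 := ℝ) (E := Ev r) (F' := Ev N)).finrank_eq,
    Module.finrank_linearMap]
  simp [mul_comm]

lemma budget (N k : ℕ) (hN : 1 ≤ N) (hk : 2 ≤ k) :
    (N : ℝ) * N * (2 * 25 ^ (N * k) * (2 * exp (-(6 * ((k : ℝ) * N))))) ≤ 1 := by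
  have h1 : (100 : ℝ) ≤ exp 6 := by
    have h := Real.exp_one_gt_d9
    have : exp 6 = exp 1 ^ 6 := by rw [← exp_nat_mul]; norm_num
    rw [this]
    calc (100 : ℝ) ≤ 2.7 ^ 6 := by norm_num
      _ ≤ _ := pow_le_pow_left₀ (by norm_num) (by linarith) 6
  have h2 : exp (-(6 * ((k : ℝ) * N))) = (exp 6 ^ (N * k))⁻¹ := by
    rw [exp_neg, ← exp_nat_mul]; congr 2; push_cast; ring
  have h3 : (100 : ℝ) ^ (N * k) ≤ exp 6 ^ (N * k) := pow_le_pow_left₀ (by norm_num) h1 _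
  have h4 : (4 : ℝ) ^ (N * 2) ≤ 4 ^ (N * k) :=
    pow_le_pow_right₀ (by norm_num) (Nat.mul_le_mul_left _ hk)
  have h5 : (N : ℝ) ≤ 2 ^ N := by exact_mod_cast (Nat.lt_two_pow_self (n := N)).le
  have h6 : (2 : ℝ) ≤ 2 ^ N := by
    calc (2 : ℝ) = 2 ^ 1 := by norm_num
      _ ≤ 2 ^ N := pow_le_pow_right₀ (by norm_num) hN
  have h7 : (4 : ℝ) ^ (N * 2) = (2 ^ N) ^ 4 := by
    rw [← pow_mul, show (4 : ℝ) = 2 ^ 2 by norm_num, ← pow_mul]; congr 1; ring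
  have h8 : (100 : ℝ) ^ (N * k) = 25 ^ (N * k) * 4 ^ (N * k) := by
    rw [← mul_pow]; norm_num
  have h9 : (4 : ℝ) * (N * N) ≤ 4 ^ (N * k) := by
    refine le_trans ?_ h4
    rw [h7]
    have hN0 : (0 : ℝ) ≤ N := Nat.cast_nonneg N
    have a1 : (N : ℝ) * N ≤ 2 ^ N * 2 ^ N := mul_le_mul h5 h5 hN0 (by positivity)
    have a2 : (4 : ℝ) ≤ 2 ^ N * 2 ^ N := by nlinarith
    calc (4 : ℝ) * (N * N) ≤ (2 ^ N * 2 ^ N) * (2 ^ N * 2 ^ N) :=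
          mul_le_mul a2 a1 (by positivity) (by positivity)
      _ = _ := by ring
  rw [h2]
  have h10 : (0 : ℝ) < exp 6 ^ (N * k) := by positivity
  have h11 : (0 : ℝ) < 25 ^ (N * k) := by positivity
  rw [show (N : ℝ) * N * (2 * 25 ^ (N * k) * (2 * (exp 6 ^ (N * k))⁻¹))
    = (25 ^ (N * k) * (4 * (N * N))) / exp 6 ^ (N * k) by ring, div_le_one h10]
  calc (25 : ℝ) ^ (N * k) * (4 * (N * N)) ≤ 25 ^ (N * k) * 4 ^ (N * k) :=
        mul_le_mul_of_nonneg_left h9 h11.le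
    _ ≤ _ := by rw [← h8]; exact h3

lemma form_half_norm {H : Type} [NormedAddCommGroup H] [NormedSpace ℝ H] (u v : H) (t : Bool)
    (hu : ‖u‖ ≤ 1) (hv : ‖v‖ ≤ 1) :
    ‖(1 / 2 : ℝ) • (u + (if t then 1 else -1 : ℝ) • v)‖ ≤ 1 := by
  have a3 := norm_add_le u ((if t then 1 else -1 : ℝ) • v)
  have a4 : ‖(if t then 1 else -1 : ℝ)‖ = 1 := by split_ifs <;> simp
  have a5 : ‖(1 / 2 : ℝ)‖ = 1 / 2 := by norm_num
  rw [norm_smul, a4] at a3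
  rw [norm_smul, a5]
  linarith

lemma form_polar {H : Type} [AddCommGroup H] [Module ℝ H] (Φ : H →ₗ[ℝ] H →ₗ[ℝ] ℝ) (u v : H)
    (K : ℝ) (hs : Φ v u = Φ u v)
    (h : ∀ t : Bool, |Φ ((1 / 2 : ℝ) • (u + (if t then 1 else -1 : ℝ) • v))
      ((1 / 2 : ℝ) • (u + (if t then 1 else -1 : ℝ) • v))| ≤ K) : |Φ u v| ≤ 2 * K := by
  have h1 := h true
  have h2 := h false
  simp only [if_true, Bool.false_eq_true, if_false, map_smul, map_add, LinearMap.smul_apply,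
    LinearMap.add_apply, smul_eq_mul] at h1 h2
  rw [hs] at h1 h2
  have h3 := abs_le.mp h1
  have h4 := abs_le.mp h2
  rw [abs_le]
  constructor <;> linarith [h3.1, h3.2, h4.1, h4.2]

lemma exists_form_aux (N d m : ℕ) (hN : 1 ≤ N) (hd : 1 ≤ d) (hm : 1 ≤ m) (hM : N * N = d + m) :
    ∃ A : HS N N →ₗ[ℝ] Ev d, (∀ y, ‖A y‖ ^ 2 ≤ ‖y‖ ^ 2) ∧
      ∀ (r s : ℕ), 1 ≤ r → r ≤ N → 1 ≤ s → s ≤ N →
      ∀ (U : Ev r →L[ℝ] Ev N) (V : HS N r) (U' : Ev s →L[ℝ] Ev N) (V' : HS N s),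
        ‖U‖ ≤ 1 → ‖V‖ ≤ 1 → ‖U'‖ ≤ 1 → ‖V'‖ ≤ 1 →
        |⟪mulUV N r U V, mulUV N s U' V'⟫_ℝ
            - ((d : ℝ) + m) / d * ⟪A (mulUV N r U V), A (mulUV N s U' V')⟫_ℝ|
          ≤ 32 * (((d : ℝ) + m) / (d : ℝ) ^ 2
            * (8 * (6 * (((r : ℝ) + s) * N)) + 9 * (√m * √(6 * (((r : ℝ) + s) * N))))) := by
  choose n1 hn1c hn1 using fun r : ℕ => exists_net (Ev r →L[ℝ] Ev N)
  choose n2 hn2c hn2 using fun r : ℕ => exists_net (HS N r)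
  let ι := Σ rs : Fin N × Fin N,
    n1 (rs.1 + 1) × n2 (rs.1 + 1) × n1 (rs.2 + 1) × n2 (rs.2 + 1) × Bool
  let L : ι → ℝ := fun i => 6 * ((((i.1.1 : ℕ) + 1 + ((i.1.2 : ℕ) + 1) : ℕ) : ℝ) * N)
  let x : ι → HS N N := fun i => (1 / 2 : ℝ) • (mulUV N _ i.2.1.1 i.2.2.1.1
    + (if i.2.2.2.2.2 then 1 else -1 : ℝ) • mulUV N _ i.2.2.2.1.1 i.2.2.2.2.1.1)
  have hN0 : (0 : ℝ) < N := by exact_mod_cast hN
  have hd0 : (0 : ℝ) < d := by exact_mod_cast hd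
  have hM0 : (0 : ℝ) < (d : ℝ) + m := by positivity
  obtain ⟨A, hA, h⟩ := jl d m hd hm L (fun i => by simp only [L]; positivity) (by
      rw [Fintype.sum_sigma]
      have hb : ∀ rs : Fin N × Fin N, ∑ y, 2 * exp (-L ⟨rs, y⟩) ≤ 1 / ((N : ℝ) * N) := by
        intro rs
        simp only [L]
        rw [sum_const, nsmul_eq_mul, le_div_iff₀ (by positivity), mul_comm]
        refine le_trans ?_ (budget N (rs.1 + 1 + (rs.2 + 1)) hN (by omega))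
        refine mul_le_mul_of_nonneg_left (mul_le_mul_of_nonneg_right ?_ (by positivity))
          (by positivity)
        have a1 := hn1c (rs.1 + 1)
        have a2 := hn2c (rs.1 + 1)
        have a3 := hn1c (rs.2 + 1)
        have a4 := hn2c (rs.2 + 1)
        rw [finrank_CLM] at a1 a3
        rw [finrank_HS] at a2 a4
        have : (univ : Finset (n1 (rs.1 + 1) × n2 (rs.1 + 1) × n1 (rs.2 + 1) × n2 (rs.2 + 1)
            × Bool)).card ≤ 2 * 25 ^ (N * (rs.1 + 1 + (rs.2 + 1))) := by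
          simp only [card_univ, Fintype.card_prod, Fintype.card_coe, Fintype.card_bool]
          calc _ ≤ 5 ^ (N * (rs.1 + 1)) * (5 ^ (N * (rs.1 + 1))
                * (5 ^ (N * (rs.2 + 1)) * (5 ^ (N * (rs.2 + 1)) * 2))) := by gcongr
            _ = _ := by
              rw [show (25 : ℕ) = 5 * 5 by norm_num, mul_pow, mul_add N (rs.1 + 1), pow_add]
              ring
        exact_mod_cast this
      calc _ ≤ ∑ _rs : Fin N × Fin N, 1 / ((N : ℝ) * N) := sum_le_sum fun rs _ => hb rs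
        _ = 1 := by simp; field_simp)
    (HS N N) (by rw [finrank_HS, hM]) x (fun i => by
      have a1 := norm_mulUV_le _ _ ((hn1 _).1 _ i.2.1.2) ((hn2 _).1 _ i.2.2.1.2)
      have a2 := norm_mulUV_le _ _ ((hn1 _).1 _ i.2.2.2.1.2) ((hn2 _).1 _ i.2.2.2.2.1.2)
      exact form_half_norm _ _ _ a1 a2)
  refine ⟨A, hA, fun r s hr hrN hs hsN U V U' V' hU hV hU' hV' => ?_⟩
  obtain ⟨r, rfl⟩ : ∃ r', r = r' + 1 := ⟨r - 1, by omega⟩
  obtain ⟨s, rfl⟩ : ∃ s', s = s' + 1 := ⟨s - 1, by omega⟩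
  let Φ : HS N N →ₗ[ℝ] HS N N →ₗ[ℝ] ℝ :=
    innerₗ (HS N N) - (((d : ℝ) + m) / d) • (innerₗ (Ev d)).compl₁₂ A A
  have hΦ : ∀ y z, Φ y z = ⟪y, z⟫_ℝ - ((d : ℝ) + m) / d * ⟪A y, A z⟫_ℝ := fun y z => by
    simp [Φ]
  set K := ((d : ℝ) + m) / (d : ℝ) ^ 2
            * (8 * (6 * ((((r + 1 : ℕ) : ℝ) + (s + 1 : ℕ)) * N))
              + 9 * (√m * √(6 * ((((r + 1 : ℕ) : ℝ) + (s + 1 : ℕ)) * N)))) with hK
  have key := four_linear (mulUV N (r + 1)) (mulUV N (s + 1)) Φ (hn1 _) (hn2 _) (hn1 _) (hn2 _)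
    (2 * K) (fun a ha b hb c hc e he => by
      have hq : ∀ t : Bool, |Φ (x ⟨(⟨r, hrN⟩, ⟨s, hsN⟩), ⟨a, ha⟩, ⟨b, hb⟩, ⟨c, hc⟩, ⟨e, he⟩, t⟩)
          (x ⟨(⟨r, hrN⟩, ⟨s, hsN⟩), ⟨a, ha⟩, ⟨b, hb⟩, ⟨c, hc⟩, ⟨e, he⟩, t⟩)| ≤ K := by
        intro t
        have h1 := h ⟨(⟨r, hrN⟩, ⟨s, hsN⟩), ⟨a, ha⟩, ⟨b, hb⟩, ⟨c, hc⟩, ⟨e, he⟩, t⟩
        set z := x ⟨(⟨r, hrN⟩, ⟨s, hsN⟩), ⟨a, ha⟩, ⟨b, hb⟩, ⟨c, hc⟩, ⟨e, he⟩, t⟩
        rw [hΦ, real_inner_self_eq_norm_sq, real_inner_self_eq_norm_sq]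
        have e1 : ‖z‖ ^ 2 - ((d : ℝ) + m) / d * ‖A z‖ ^ 2
            = -(((d : ℝ) + m) * (‖A z‖ ^ 2 / d - ‖z‖ ^ 2 / (d + m))) := by
          field_simp; ring
        rw [e1, abs_neg, abs_mul, abs_of_pos hM0, hK, div_mul_eq_mul_div, mul_div_assoc]
        refine mul_le_mul_of_nonneg_left ?_ hM0.le
        simp only [L] at h1
        rwa [Nat.cast_add] at h1
      have hsymm : Φ (mulUV N (s + 1) c e) (mulUV N (r + 1) a b)
          = Φ (mulUV N (r + 1) a b) (mulUV N (s + 1) c e) := by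
        rw [hΦ, hΦ, real_inner_comm, real_inner_comm (A _)]
      exact form_polar Φ _ _ K hsymm hq) U V U' V' hU hV hU' hV'
  rw [hΦ] at key
  linarith only [key]

lemma psd_cs {H F : Type} [NormedAddCommGroup H] [InnerProductSpace ℝ H] [NormedAddCommGroup F]
    [InnerProductSpace ℝ F] (A : H →ₗ[ℝ] F) (hA : ∀ y, ‖A y‖ ^ 2 ≤ ‖y‖ ^ 2) (x y : H) :
    (⟪x, y⟫_ℝ - ⟪A x, A y⟫_ℝ) ^ 2 ≤ (‖x‖ ^ 2 - ‖A x‖ ^ 2) * (‖y‖ ^ 2 - ‖A y‖ ^ 2) := by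
  have h : ∀ t : ℝ, 0 ≤ (‖y‖ ^ 2 - ‖A y‖ ^ 2) * (t * t) + (2 * (⟪x, y⟫_ℝ - ⟪A x, A y⟫_ℝ)) * t
      + (‖x‖ ^ 2 - ‖A x‖ ^ 2) := by
    intro t
    have h1 := hA (x + t • y)
    rw [map_add, map_smul, norm_add_sq_real, norm_add_sq_real, real_inner_smul_right,
      real_inner_smul_right, norm_smul, norm_smul, mul_pow, mul_pow, Real.norm_eq_abs, sq_abs] at h1
    nlinarith
  have := discrim_le_zero h
  rw [discrim] at this
  nlinarith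

lemma exists_form (N d m : ℕ) (hN : 1 ≤ N) (hd : 1 ≤ d) (hm : 1 ≤ m) (hM : N * N = d + m) :
    ∃ A : HS N N →ₗ[ℝ] Ev d,
      ∀ (r s : ℕ), 1 ≤ r → r ≤ N → 1 ≤ s → s ≤ N →
      ∀ (U : Ev r →L[ℝ] Ev N) (V : HS N r) (U' : Ev s →L[ℝ] Ev N) (V' : HS N s),
        ‖U‖ ≤ 1 → ‖V‖ ≤ 1 → ‖U'‖ ≤ 1 → ‖V'‖ ≤ 1 →
        |⟪mulUV N r U V, mulUV N s U' V'⟫_ℝ
            - ((d : ℝ) + m) / d * ⟪A (mulUV N r U V), A (mulUV N s U' V')⟫_ℝ|
          ≤ 6200 * (((d : ℝ) + m) / (d : ℝ) ^ 2)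
            * (√r * √s * N + √m * √N * (√r + √s)) := by
  obtain ⟨A, hA, h⟩ := exists_form_aux N d m hN hd hm hM
  have hN0 : (0 : ℝ) < N := by exact_mod_cast hN
  have hd0 : (0 : ℝ) < d := by exact_mod_cast hd
  have hm0 : (0 : ℝ) < m := by exact_mod_cast hm
  set κ := ((d : ℝ) + m) / (d : ℝ) ^ 2 with hκ
  have hκ0 : 0 < κ := by positivity
  set t := √(m : ℝ) with ht
  have ht0 : 0 ≤ t := sqrt_nonneg _
  have ht2 : t ^ 2 = m := sq_sqrt hm0.le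
  have hsq : ∀ r : ℕ, (√r * √N) ^ 2 = (r : ℝ) * N := fun r => by
    rw [mul_pow, sq_sqrt (Nat.cast_nonneg r), sq_sqrt hN0.le]
  have h1 : ∀ (r s : ℕ), 1 ≤ r → r ≤ N → 1 ≤ s → s ≤ N →
      ∀ (U : Ev r →L[ℝ] Ev N) (V : HS N r) (U' : Ev s →L[ℝ] Ev N) (V' : HS N s),
        ‖U‖ ≤ 1 → ‖V‖ ≤ 1 → ‖U'‖ ≤ 1 → ‖V'‖ ≤ 1 →
        |⟪mulUV N r U V, mulUV N s U' V'⟫_ℝ
            - ((d : ℝ) + m) / d * ⟪A (mulUV N r U V), A (mulUV N s U' V')⟫_ℝ|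
          ≤ 1536 * κ * ((√r * √N) ^ 2 + (√s * √N) ^ 2 + t * (√r * √N + √s * √N)) := by
    intro r s hr hrN hs hsN U V U' V' hU hV hU' hV'
    refine (h r s hr hrN hs hsN U V U' V' hU hV hU' hV').trans ?_
    have e1 : ((r : ℝ) + s) * N = (√r * √N) ^ 2 + (√s * √N) ^ 2 := by rw [hsq, hsq]; ring
    rw [e1]
    have ha : 0 ≤ √(r : ℝ) * √N := by positivity
    have hb : 0 ≤ √(s : ℝ) * √N := by positivity
    generalize √(r : ℝ) * √N = a at *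
    generalize √(s : ℝ) * √N = b at *
    have e2 : √(6 * (a ^ 2 + b ^ 2)) ≤ 3 * (a + b) := by
      rw [sqrt_le_left (by positivity)]
      linarith only [mul_nonneg ha hb, sq_nonneg a, sq_nonneg b]
    have e3 : t * √(6 * (a ^ 2 + b ^ 2)) ≤ t * (3 * (a + b)) := mul_le_mul_of_nonneg_left e2 ht0
    have e4 : 0 ≤ t * (a + b) := by positivity
    have e5 : 8 * (6 * (a ^ 2 + b ^ 2)) + 9 * (t * √(6 * (a ^ 2 + b ^ 2)))
        ≤ 48 * (a ^ 2 + b ^ 2 + t * (a + b)) := by linarith only [e3, e4]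
    calc _ ≤ 32 * (κ * (48 * (a ^ 2 + b ^ 2 + t * (a + b)))) := by gcongr
      _ = _ := by ring
  have hmd : (m : ℝ) / d ≤ κ * t ^ 2 := by
    rw [ht2, hκ, div_mul_eq_mul_div, div_le_div_iff₀ hd0 (by positivity)]
    linarith only [mul_pos (mul_pos hm0 hm0) hd0]
  have h2 : ∀ (r : ℕ), 1 ≤ r → r ≤ N → ∀ (U : Ev r →L[ℝ] Ev N) (V : HS N r), ‖U‖ ≤ 1 → ‖V‖ ≤ 1 →
      ((d : ℝ) + m) / d * (‖mulUV N r U V‖ ^ 2 - ‖A (mulUV N r U V)‖ ^ 2)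
        ≤ 3073 * κ * (√r * √N + t) ^ 2 := by
    intro r hr hrN U V hU hV
    have a1 := (abs_le.mp (h1 r r hr hrN hr hrN U V U V hU hV hU hV)).2
    rw [real_inner_self_eq_norm_sq, real_inner_self_eq_norm_sq] at a1
    have a2 := norm_mulUV_le U V hU hV
    have ha : 0 ≤ √(r : ℝ) * √N := by positivity
    generalize √(r : ℝ) * √N = a at *
    set z := mulUV N r U V
    have a3 : ‖z‖ ^ 2 ≤ 1 := pow_le_one₀ (norm_nonneg z) a2
    have a4 : ((d : ℝ) + m) / d * (‖z‖ ^ 2 - ‖A z‖ ^ 2)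
        = (‖z‖ ^ 2 - ((d : ℝ) + m) / d * ‖A z‖ ^ 2) + m / d * ‖z‖ ^ 2 := by
      field_simp; ring
    have a5 : (m : ℝ) / d * ‖z‖ ^ 2 ≤ κ * t ^ 2 := by
      have : (0 : ℝ) ≤ m / d := by positivity
      exact (mul_le_of_le_one_right this a3).trans hmd
    rw [a4]
    have a6 : 0 ≤ κ * (a * t) := by positivity
    have a7 : 0 ≤ κ * a ^ 2 := by positivity
    have a8 : 0 ≤ κ * t ^ 2 := by positivity
    linarith only [a1, a5, a6, a7, a8]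
  refine ⟨A, fun r s hr hrN hs hsN U V U' V' hU hV hU' hV' => ?_⟩
  have b1 := h1 r s hr hrN hs hsN U V U' V' hU hV hU' hV'
  have b2 := h2 r hr hrN U V hU hV
  have b3 := h2 s hs hsN U' V' hU' hV'
  have b4 := psd_cs A hA (mulUV N r U V) (mulUV N s U' V')
  have b5 := norm_mulUV_le U V hU hV
  have b6 := norm_mulUV_le U' V' hU' hV'
  have e1 : √(r : ℝ) * √s * N + t * √N * (√r + √s)
      = (√r * √N) * (√s * √N) + t * (√r * √N + √s * √N) := by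
    have := mul_self_sqrt hN0.le
    linear_combination (-(√(r : ℝ) * √s)) * this
  rw [e1]
  have ha : 0 ≤ √(r : ℝ) * √N := by positivity
  have hb : 0 ≤ √(s : ℝ) * √N := by positivity
  generalize √(r : ℝ) * √N = a at *
  generalize √(s : ℝ) * √N = b at *
  set x := mulUV N r U V
  set y := mulUV N s U' V'
  have c0 : 0 ≤ κ * (a * b) := by positivity
  have c1 : 0 ≤ κ * (t * a) := by positivity
  have c2 : 0 ≤ κ * (t * b) := by positivity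
  by_cases hc : a ≤ t ∧ b ≤ t
  · refine b1.trans ?_
    have c3 : κ * a ^ 2 ≤ κ * (t * a) :=
      mul_le_mul_of_nonneg_left (by rw [sq]; exact mul_le_mul_of_nonneg_right hc.1 ha) hκ0.le
    have c4 : κ * b ^ 2 ≤ κ * (t * b) :=
      mul_le_mul_of_nonneg_left (by rw [sq]; exact mul_le_mul_of_nonneg_right hc.2 hb) hκ0.le
    linarith only [c0, c1, c2, c3, c4]
  · have c3 : t ^ 2 ≤ t * (a + b) := by
      have : t ≤ a + b := by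
        rcases not_and_or.mp hc with h | h <;> linarith only [not_le.mp h, ha, hb]
      rw [sq]
      exact mul_le_mul_of_nonneg_left this ht0
    have c4 : κ * t ^ 2 ≤ κ * (t * (a + b)) := by gcongr
    have hρ : (0 : ℝ) ≤ ((d : ℝ) + m) / d := by positivity
    have c5 : |((d : ℝ) + m) / d * (⟪x, y⟫_ℝ - ⟪A x, A y⟫_ℝ)| ≤ 3073 * κ * ((a + t) * (b + t)) := by
      refine abs_le_of_sq_le_sq ?_ (by positivity)
      calc (((d : ℝ) + m) / d * (⟪x, y⟫_ℝ - ⟪A x, A y⟫_ℝ)) ^ 2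
          = (((d : ℝ) + m) / d) ^ 2 * (⟪x, y⟫_ℝ - ⟪A x, A y⟫_ℝ) ^ 2 := by ring
        _ ≤ (((d : ℝ) + m) / d) ^ 2 * ((‖x‖ ^ 2 - ‖A x‖ ^ 2) * (‖y‖ ^ 2 - ‖A y‖ ^ 2)) := by gcongr
        _ = (((d : ℝ) + m) / d * (‖x‖ ^ 2 - ‖A x‖ ^ 2))
            * (((d : ℝ) + m) / d * (‖y‖ ^ 2 - ‖A y‖ ^ 2)) := by ring
        _ ≤ (3073 * κ * (a + t) ^ 2) * (3073 * κ * (b + t) ^ 2) :=
            mul_le_mul b2 b3 (mul_nonneg hρ (sub_nonneg.mpr (hA y))) (by positivity)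
        _ = _ := by ring
    have c6 : |(m : ℝ) / d * ⟪x, y⟫_ℝ| ≤ κ * t ^ 2 := by
      rw [abs_mul, abs_of_nonneg (by positivity)]
      have := abs_real_inner_le_norm x y
      have h7 : |⟪x, y⟫_ℝ| ≤ 1 := this.trans (mul_le_one₀ b5 (norm_nonneg y) b6)
      have : (0 : ℝ) ≤ m / d := by positivity
      exact (mul_le_of_le_one_right this h7).trans hmd
    have c7 : ⟪x, y⟫_ℝ - ((d : ℝ) + m) / d * ⟪A x, A y⟫_ℝ
        = ((d : ℝ) + m) / d * (⟪x, y⟫_ℝ - ⟪A x, A y⟫_ℝ) - (m : ℝ) / d * ⟪x, y⟫_ℝ := by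
      field_simp; ring
    rw [c7]
    refine (abs_sub _ _).trans ((add_le_add c5 c6).trans ?_)
    linarith only [c0, c1, c2, c4]

end Pool.Agent.MP_6a785f_an
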