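import Mathlib
import Pool.Agent.MP_6a785f_an.Form

/-!
Singular value decomposition in the form needed here.
-/

set_option autoImplicit false

open Finset Real Module
open scoped InnerProductSpace

namespace Pool.Agent.MP_6a785f_an

/-- A matrix as the family of its columns. -/
noncomputable def cols (N : ℕ) : Matrix (Fin N) (Fin N) ℝ ≃ₗ[ℝ] HS N N where
  toFun X := WithLp.toLp 2 (fun b => WithLp.toLp 2 (fun a => X a b))
  invFun y := Matrix.of fun a b => y b a
  map_add' X Y := by ext b a; simp
  map_smul' c X := by ext b a; simp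
  left_inv X := by ext a b; simp
  right_inv y := by ext b a; simp

lemma svd (N : ℕ) (X : Matrix (Fin N) (Fin N) ℝ) : ∃ R : Fin N → HS N N,
    cols N X = ∑ j : Fin N, (Matrix.toEuclideanLin X).singularValues j • R j ∧
    (∀ j : Fin N, ⟪cols N X, R j⟫_ℝ = (Matrix.toEuclideanLin X).singularValues j) ∧
    ∀ J : Finset (Fin N), ∃ (U : Ev J.card →L[ℝ] Ev N) (V : HS N J.card), ‖U‖ ≤ 1 ∧ ‖V‖ ≤ 1 ∧
      ∑ j ∈ J, R j = √(J.card) • mulUV N J.card U V := by
  set T := Matrix.toEuclideanLin X with hTdef
  have hT := T.isSymmetric_adjoint_comp_self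
  have hn : finrank ℝ (Ev N) = N := by simp
  set v := hT.eigenvectorBasis hn with hv
  set σ : Fin N → ℝ := fun j => T.singularValues j with hσ
  have hσ2 : ∀ j, σ j ^ 2 = hT.eigenvalues hn j := fun j => T.sq_singularValues_fin hn j
  have hvv : ∀ i j, ⟪v i, v j⟫_ℝ = if i = j then 1 else 0 := fun i j =>
    orthonormal_iff_ite.mp v.orthonormal i j
  have hTT : ∀ i j, ⟪T (v i), T (v j)⟫_ℝ = if i = j then σ j ^ 2 else 0 := by
    intro i j
    rw [← LinearMap.adjoint_inner_right]
    have := hT.apply_eigenvectorBasis hn j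
    rw [LinearMap.comp_apply] at this
    rw [this, real_inner_smul_right, hvv, hσ2]
    simp
  set u : Fin N → Ev N := fun j => (σ j)⁻¹ • T (v j) with hu
  have hTu : ∀ j, T (v j) = σ j • u j := by
    intro j
    by_cases h : σ j = 0
    · have := hTT j j
      rw [if_pos rfl, h, real_inner_self_eq_norm_sq] at this
      have h2 : T (v j) = 0 := by simpa using this
      rw [h2, h, zero_smul]
    · simp only [hu]
      rw [smul_smul, mul_inv_cancel₀ h, one_smul]
  have huu : ∀ i j, ⟪u i, u j⟫_ℝ = if i = j then (σ j)⁻¹ * ((σ j)⁻¹ * σ j ^ 2) else 0 := by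
    intro i j
    simp only [hu]
    rw [real_inner_smul_left, real_inner_smul_right, hTT]
    split_ifs with h
    · rw [h]
    · simp
  have hu1 : ∀ j, (σ j)⁻¹ * ((σ j)⁻¹ * σ j ^ 2) ≤ 1 := fun j => by
    by_cases h : σ j = 0
    · simp [h]
    · apply le_of_eq; field_simp
  have hu2 : ∀ j, σ j * ((σ j)⁻¹ * ((σ j)⁻¹ * σ j ^ 2)) = σ j := fun j => by
    by_cases h : σ j = 0
    · simp [h]
    · field_simp
  set R : Fin N → HS N N := fun j => WithLp.toLp 2 (fun b => v j b • u j) with hR
  have hRb : ∀ j b, R j b = v j b • u j := fun j b => rfl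
  have hX : cols N X = ∑ j : Fin N, σ j • R j := by
    ext1 b
    have h1 : cols N X b = T (EuclideanSpace.single b 1) := by
      ext a
      simp [cols, hTdef]
    rw [h1, ← v.sum_repr' (EuclideanSpace.single b 1), map_sum]
    rw [WithLp.ofLp_sum, Finset.sum_apply]
    refine sum_congr rfl fun j _ => ?_
    rw [map_smul, hTu, EuclideanSpace.inner_single_right]
    simp [hRb, smul_smul, mul_comm]
  have hRR : ∀ i j, ⟪R i, R j⟫_ℝ = ⟪v i, v j⟫_ℝ * ⟪u i, u j⟫_ℝ := by
    intro i j
    rw [PiLp.inner_apply, PiLp.inner_apply (v i), sum_mul]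
    refine sum_congr rfl fun b _ => ?_
    rw [hRb, hRb, real_inner_smul_left, real_inner_smul_right]
    simp
    ring
  refine ⟨R, hX, fun j => ?_, fun J => ?_⟩
  · rw [hX, sum_inner, sum_eq_single j]
    · rw [real_inner_smul_left, hRR, hvv, huu, if_pos rfl, if_pos rfl, one_mul, hu2]
    · intro i _ hij
      rw [real_inner_smul_left, hRR, hvv, if_neg hij]
      simp
    · simp
  · set e : Fin J.card → Fin N := fun k => (J.equivFin.symm k : Fin N) with he
    have hinj : Function.Injective e := fun a b h => J.equivFin.symm.injective (Subtype.ext h)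
    have hsum : ∀ f : Fin N → HS N N, ∑ j ∈ J, f j = ∑ k, f (e k) := fun f => by
      rw [← sum_coe_sort J f]
      exact (Equiv.sum_comp J.equivFin.symm (fun j : J => f j)).symm
    let U : Ev J.card →L[ℝ] Ev N := ∑ k, (EuclideanSpace.proj k).smulRight (u (e k))
    have hU : ∀ c, U c = ∑ k, c k • u (e k) := fun c => by simp [U]
    let W : HS N J.card := WithLp.toLp 2 (fun b => WithLp.toLp 2 (fun k => v (e k) b))
    have hW : ‖W‖ ^ 2 = J.card := by
      rw [PiLp.norm_sq_eq_of_L2]
      simp only [W, EuclideanSpace.real_norm_sq_eq]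
      rw [sum_comm]
      simp_rw [← EuclideanSpace.real_norm_sq_eq, v.orthonormal.1]
      simp
    refine ⟨U, (√(J.card : ℝ))⁻¹ • W, ?_, ?_, ?_⟩
    · refine ContinuousLinearMap.opNorm_le_bound _ zero_le_one fun c => ?_
      rw [one_mul]
      refine le_of_sq_le_sq ?_ (norm_nonneg _)
      rw [← real_inner_self_eq_norm_sq, hU, sum_inner, EuclideanSpace.real_norm_sq_eq]
      refine sum_le_sum fun k _ => ?_
      rw [inner_sum, sum_eq_single k]
      · rw [real_inner_smul_left, real_inner_smul_right, huu, if_pos rfl]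
        nlinarith [hu1 (e k), sq_nonneg (c k)]
      · intro l _ hl
        rw [real_inner_smul_left, real_inner_smul_right, huu, if_neg (fun h => hl (hinj h).symm)]
        simp
      · simp
    · have h1 : ‖W‖ = √(J.card : ℝ) := by
        have := sqrt_sq (norm_nonneg W)
        rw [hW] at this
        exact this.symm
      rw [norm_smul, h1, Real.norm_eq_abs, abs_of_nonneg (inv_nonneg.mpr (sqrt_nonneg _))]
      exact inv_mul_le_one_of_le₀ le_rfl (sqrt_nonneg _)
    · by_cases hJ : J = ∅
      · have h0 : √(J.card : ℝ) = 0 := by rw [hJ]; simp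
        rw [h0, zero_smul]
        exact sum_eq_zero fun j hj => absurd hj (by rw [hJ]; exact notMem_empty j)
      have hc : (0 : ℝ) < J.card := by
        exact_mod_cast card_pos.mpr (nonempty_iff_ne_empty.mpr hJ)
      rw [map_smul, smul_smul, mul_inv_cancel₀ (sqrt_pos.mpr hc).ne', one_smul, hsum]
      ext1 b
      rw [mulUV_apply, hU, WithLp.ofLp_sum, Finset.sum_apply]

end Pool.Agent.MP_6a785f_an
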