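import Mathlib

/-!
Weak `ℓ₂` bounds imply `ℓ_q` bounds for `q > 2`.
-/

set_option autoImplicit false

open Finset Real

namespace Pool.Agent.MP_6a785f_an

lemma weak_sum (q β : ℝ) (hq : 0 < q) (hβ : 0 ≤ β) {ι : Type} [DecidableEq ι] (w : ι → ℝ) (n : ℕ) :
    ∀ s : Finset ι, s.card = n → (∀ J ⊆ s, ∑ j ∈ J, w j ≤ β * √(J.card)) →
      ∑ j ∈ s, (max (w j) 0) ^ q ≤ β ^ q * ∑ k ∈ range n, ((k + 1 : ℕ) : ℝ) ^ (-(q / 2)) := by
  induction n with
  | zero =>
    intro s hs _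
    rw [card_eq_zero] at hs
    simp [hs]
  | succ n ih =>
    intro s hs h
    have hne : s.Nonempty := card_pos.mp (by omega)
    obtain ⟨a, ha, hmin⟩ := exists_min_image s w hne
    have h1 := ih (s.erase a) (by rw [card_erase_of_mem ha, hs]; rfl)
      (fun J hJ => h J (hJ.trans (erase_subset _ _)))
    rw [← add_sum_erase s _ ha, sum_range_succ, mul_add, add_comm]
    refine add_le_add h1 ?_
    have hn : (0 : ℝ) < ((n + 1 : ℕ) : ℝ) := by positivity
    have h2 : ((n + 1 : ℕ) : ℝ) * w a ≤ β * √((n + 1 : ℕ) : ℝ) := by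
      have h3 := h s Subset.rfl
      have h4 := card_nsmul_le_sum s w (w a) hmin
      rw [hs] at h3 h4
      rw [nsmul_eq_mul] at h4
      exact h4.trans h3
    have hs0 : 0 < √((n + 1 : ℕ) : ℝ) := sqrt_pos.mpr hn
    have h5 : max (w a) 0 ≤ β * ((n + 1 : ℕ) : ℝ) ^ (-(1 / 2 : ℝ)) := by
      refine max_le ?_ (by positivity)
      rw [rpow_neg hn.le, ← sqrt_eq_rpow, ← div_eq_mul_inv, le_div_iff₀ hs0]
      have h6 := mul_self_sqrt hn.le
      nlinarith
    calc (max (w a) 0) ^ q ≤ (β * ((n + 1 : ℕ) : ℝ) ^ (-(1 / 2 : ℝ))) ^ q :=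
          rpow_le_rpow (le_max_right _ _) h5 hq.le
      _ = β ^ q * ((n + 1 : ℕ) : ℝ) ^ (-(q / 2)) := by
          rw [mul_rpow hβ (by positivity), ← rpow_mul hn.le]
          congr 2
          ring

lemma weak_norm (q : ℝ) (hq : 2 < q) : ∃ Z : ℝ, 0 ≤ Z ∧ ∀ (N : ℕ) (φ : Fin N → ℝ) (α β : ℝ),
    0 ≤ α → 0 ≤ β → (∀ J : Finset (Fin N), ∑ j ∈ J, φ j ≤ α * J.card + β * √(J.card)) →
    (∑ j, (max (φ j) 0) ^ q) ^ (1 / q) ≤ Z * β + α * (N : ℝ) ^ (1 / q) := by
  have hsum : Summable fun k : ℕ => ((k + 1 : ℕ) : ℝ) ^ (-(q / 2)) :=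
    (summable_nat_add_iff (f := fun k : ℕ => (k : ℝ) ^ (-(q / 2))) 1).mpr
      (Real.summable_nat_rpow.mpr (by linarith))
  have hq0 : 0 < q := by linarith
  set T := ∑' k : ℕ, ((k + 1 : ℕ) : ℝ) ^ (-(q / 2)) with hT
  have hT0 : 0 ≤ T := tsum_nonneg fun k => by positivity
  refine ⟨T ^ (1 / q), by positivity, fun N φ α β hα hβ h => ?_⟩
  have h1 := weak_sum q β hq0 hβ (fun j => φ j - α) N univ (by simp) (fun J _ => by
    have := h J
    rw [sum_sub_distrib, sum_const, nsmul_eq_mul]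
    linarith)
  have h2 : ∑ k ∈ range N, ((k + 1 : ℕ) : ℝ) ^ (-(q / 2)) ≤ T :=
    hsum.sum_le_tsum _ (fun k _ => by positivity)
  have h3 : (∑ j, (max (φ j - α) 0) ^ q) ^ (1 / q) ≤ T ^ (1 / q) * β := by
    calc (∑ j, (max (φ j - α) 0) ^ q) ^ (1 / q) ≤ (β ^ q * T) ^ (1 / q) := by
          refine rpow_le_rpow (sum_nonneg fun j _ => by positivity) (h1.trans ?_) (by positivity)
          exact mul_le_mul_of_nonneg_left h2 (by positivity)
      _ = T ^ (1 / q) * β := by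
          rw [mul_rpow (by positivity) hT0, ← rpow_mul hβ, mul_one_div_cancel hq0.ne', rpow_one,
            mul_comm]
  have h4 : (∑ _j : Fin N, α ^ q) ^ (1 / q) = α * (N : ℝ) ^ (1 / q) := by
    rw [sum_const, card_univ, Fintype.card_fin, nsmul_eq_mul,
      mul_rpow (by positivity) (by positivity), ← rpow_mul hα, mul_one_div_cancel hq0.ne', rpow_one,
      mul_comm]
  have h5 := Real.Lp_add_le_of_nonneg (univ : Finset (Fin N)) (f := fun j => max (φ j - α) 0)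
    (g := fun _ => α) (p := q) (by linarith) (fun j _ => le_max_right _ _) (fun j _ => hα)
  rw [h4] at h5
  refine le_trans ?_ (h5.trans (add_le_add h3 le_rfl))
  refine rpow_le_rpow (sum_nonneg fun j _ => by positivity) (sum_le_sum fun j _ => ?_)
    (by positivity)
  refine rpow_le_rpow (le_max_right _ _) ?_ hq0.le
  refine max_le ?_ (by positivity)
  linarith [le_max_left (φ j - α) 0]

lemma lp_mono {N : ℕ} (σ : Fin N → ℝ) (hσ : ∀ j, 0 ≤ σ j) {p q : ℝ} (hp : 0 < p) (hpq : p ≤ q) :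
    (∑ j, σ j ^ q) ^ (1 / q) ≤ (∑ j, σ j ^ p) ^ (1 / p) := by
  have hq : 0 < q := by linarith
  set S := ∑ j, σ j ^ p with hS
  have hS0 : 0 ≤ S := sum_nonneg fun j _ => rpow_nonneg (hσ j) _
  set R := S ^ (1 / p) with hR
  have hR0 : 0 ≤ R := rpow_nonneg hS0 _
  have hRp : R ^ p = S := by rw [hR, ← rpow_mul hS0, one_div_mul_cancel hp.ne', rpow_one]
  have h1 : ∀ j, σ j ≤ R := fun j => by
    have h2 : σ j ^ p ≤ S :=
      single_le_sum (f := fun j => σ j ^ p) (fun j _ => rpow_nonneg (hσ j) _) (mem_univ j)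
    rw [← hRp] at h2
    exact (rpow_le_rpow_iff (hσ j) hR0 hp).mp h2
  have h3 : ∑ j, σ j ^ q ≤ R ^ q := by
    calc ∑ j, σ j ^ q ≤ ∑ j, σ j ^ p * R ^ (q - p) := by
          refine sum_le_sum fun j _ => ?_
          have : σ j ^ q = σ j ^ p * σ j ^ (q - p) := by
            rw [← rpow_add' (hσ j) (by linarith)]; congr 1; ring
          rw [this]
          exact mul_le_mul_of_nonneg_left (rpow_le_rpow (hσ j) (h1 j) (by linarith))
            (rpow_nonneg (hσ j) _)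
      _ = R ^ q := by
          rw [← sum_mul, ← hS, ← hRp, ← rpow_add' hR0 (by linarith)]; congr 1; ring
  calc (∑ j, σ j ^ q) ^ (1 / q) ≤ (R ^ q) ^ (1 / q) :=
        rpow_le_rpow (sum_nonneg fun j _ => rpow_nonneg (hσ j) _) h3 (by positivity)
    _ = R := by rw [← rpow_mul hR0, mul_one_div_cancel hq.ne', rpow_one]

end Pool.Agent.MP_6a785f_an
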