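import Mathlib
import Pool.Agent.MP_6a785f_an.Defs
import Pool.Agent.MP_6a785f_an.SVD
import Pool.Agent.MP_6a785f_an.Weak

/-!
The main estimate.
-/

set_option autoImplicit false

open Finset Real Module
open scoped InnerProductSpace

namespace Pool.Agent.MP_6a785f_an

lemma schattenNorm_nonneg {N : ℕ} (p : ℝ) (A : Matrix (Fin N) (Fin N) ℝ) :
    0 ≤ schattenNorm p A :=
  rpow_nonneg (sum_nonneg fun _ _ => rpow_nonneg (LinearMap.singularValues_nonneg _ _) _) _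

lemma schattenNorm_mono {N : ℕ} {p q : ℝ} (hp : 0 < p) (hpq : p ≤ q)
    (A : Matrix (Fin N) (Fin N) ℝ) : schattenNorm q A ≤ schattenNorm p A :=
  lp_mono (fun j : Fin N => (Matrix.toEuclideanLin A).singularValues j)
    (fun _ => LinearMap.singularValues_nonneg _ _) hp hpq

lemma main_aux (p p' q : ℝ) (hp : p.HolderConjugate p') (hp' : 2 < p') (hq : 2 < q) :
    ∃ Z₁ Z₂ : ℝ, 0 ≤ Z₁ ∧ 0 ≤ Z₂ ∧ ∀ N d m : ℕ, 1 ≤ N → 1 ≤ d → 1 ≤ m → N * N = d + m →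
      ∃ S : Matrix (Fin N) (Fin N) ℝ →ₗ[ℝ] Matrix (Fin N) (Fin N) ℝ,
        finrank ℝ (LinearMap.range S) ≤ d ∧ ∀ X, schattenNorm q (X - S X) ≤
          6200 * (((d : ℝ) + m) / (d : ℝ) ^ 2) * (Z₂ * √m * (√N * (N : ℝ) ^ (1 / p'))
            + Z₁ * √m * (√N * (N : ℝ) ^ (1 / q))
            + (√N * (N : ℝ) ^ (1 / p')) * (√N * (N : ℝ) ^ (1 / q))) * schattenNorm p X := by
  obtain ⟨Z₁, hZ₁, hw₁⟩ := weak_norm p' hp'
  obtain ⟨Z₂, hZ₂, hw₂⟩ := weak_norm q hq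
  refine ⟨Z₁, Z₂, hZ₁, hZ₂, fun N d m hN hd hm hM => ?_⟩
  obtain ⟨A, hA⟩ := exists_form N d m hN hd hm hM
  set ρ : ℝ := ((d : ℝ) + m) / d with hρ
  set G : ℝ := 6200 * (((d : ℝ) + m) / (d : ℝ) ^ 2) with hG
  have hG0 : 0 ≤ G := by positivity
  set t := √(m : ℝ) with ht
  have ht0 : 0 ≤ t := sqrt_nonneg _
  have hN0 : (0 : ℝ) ≤ N := Nat.cast_nonneg N
  let S₁ : Ev d →ₗ[ℝ] Matrix (Fin N) (Fin N) ℝ :=
    (cols N).symm.toLinearMap ∘ₗ (ρ • LinearMap.adjoint A)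
  let S₂ : Matrix (Fin N) (Fin N) ℝ →ₗ[ℝ] Ev d := A ∘ₗ (cols N).toLinearMap
  refine ⟨S₁ ∘ₗ S₂, ?_, fun X => ?_⟩
  · refine (Submodule.finrank_mono (LinearMap.range_comp_le_range S₂ S₁)).trans ?_
    simpa using LinearMap.finrank_range_le S₁
  let Φ : HS N N →ₗ[ℝ] HS N N →ₗ[ℝ] ℝ := innerₗ (HS N N) - ρ • (innerₗ (Ev d)).compl₁₂ A A
  have hΦ : ∀ y z, Φ y z = ⟪y, z⟫_ℝ - ρ * ⟪A y, A z⟫_ℝ := fun y z => by simp [Φ]
  set Y := X - (S₁ ∘ₗ S₂) X with hY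
  have hYΦ : ∀ y, ⟪cols N Y, y⟫_ℝ = Φ (cols N X) y := fun y => by
    rw [hΦ, hY, map_sub, inner_sub_left]
    simp [S₁, S₂, real_inner_smul_left, LinearMap.adjoint_inner_left]
  obtain ⟨R, hR, -, hRJ⟩ := svd N X
  obtain ⟨R', -, hR', hRJ'⟩ := svd N Y
  set σ : Fin N → ℝ := fun j => (Matrix.toEuclideanLin X).singularValues j with hσ
  set σ' : Fin N → ℝ := fun j => (Matrix.toEuclideanLin Y).singularValues j with hσ'
  have hσ0 : ∀ j, 0 ≤ σ j := fun j => LinearMap.singularValues_nonneg _ _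
  have hσ'0 : ∀ j, 0 ≤ σ' j := fun j => LinearMap.singularValues_nonneg _ _
  set P := schattenNorm p X with hP
  have hP0 : 0 ≤ P := schattenNorm_nonneg p X
  set a := (N : ℝ) ^ (1 / p') with ha
  have ha0 : 0 ≤ a := rpow_nonneg hN0 _
  have key : ∀ J' : Finset (Fin N), ∑ j ∈ J', σ' j
      ≤ (P * G * (Z₁ * t * √N + N * a)) * J'.card + (P * G * (t * √N * a)) * √(J'.card) := by
    intro J'
    by_cases hJ' : J' = ∅
    · simp [hJ']
    have hs1 : 1 ≤ J'.card := card_pos.mpr (nonempty_iff_ne_empty.mpr hJ')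
    have hsN : J'.card ≤ N := by simpa using card_le_univ J'
    obtain ⟨U', V', hU', hV', hy⟩ := hRJ' J'
    set y := ∑ j ∈ J', R' j with hydef
    have hss : √(J'.card : ℝ) * √(J'.card : ℝ) = J'.card := mul_self_sqrt (Nat.cast_nonneg _)
    have hs0 : 0 ≤ √(J'.card : ℝ) := sqrt_nonneg _
    have h1 := hw₁ N (fun j => Φ (R j) y) (G * (J'.card * N + √(J'.card) * t * √N))
      (G * (J'.card * t * √N)) (by positivity) (by positivity) (fun J => by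
        by_cases hJ : J = ∅
        · simp [hJ]
        have hr1 : 1 ≤ J.card := card_pos.mpr (nonempty_iff_ne_empty.mpr hJ)
        have hrN : J.card ≤ N := by simpa using card_le_univ J
        obtain ⟨U, V, hU, hV, hx⟩ := hRJ J
        have hrr : √(J.card : ℝ) * √(J.card : ℝ) = J.card := mul_self_sqrt (Nat.cast_nonneg _)
        have hr0 : 0 ≤ √(J.card : ℝ) := sqrt_nonneg _
        have h2 := (abs_le.mp (hA _ _ hr1 hrN hs1 hsN U V U' V' hU hV hU' hV')).2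
        rw [← hΦ] at h2
        have h3 : ∑ j ∈ J, Φ (R j) y = √(J.card : ℝ) * √(J'.card : ℝ)
            * Φ (mulUV N _ U V) (mulUV N _ U' V') := by
          rw [← LinearMap.sum_apply, ← map_sum, hx, hy, map_smul, map_smul, LinearMap.smul_apply,
            smul_eq_mul, smul_eq_mul]
          ring
        rw [h3]
        refine (mul_le_mul_of_nonneg_left h2 (by positivity)).trans (le_of_eq ?_)
        generalize √(J.card : ℝ) = r at *
        generalize √(J'.card : ℝ) = s at *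
        rw [← hrr, ← hss]
        ring)
    have h4 : ∑ j ∈ J', σ' j = ∑ j, σ j * Φ (R j) y := by
      have : ∑ j ∈ J', σ' j = ⟪cols N Y, y⟫_ℝ := by
        rw [hydef, inner_sum]
        exact sum_congr rfl fun j _ => (hR' j).symm
      rw [this, hYΦ, hR, map_sum Φ, LinearMap.sum_apply]
      refine sum_congr rfl fun j _ => ?_
      rw [map_smul, LinearMap.smul_apply, smul_eq_mul]
    have h5 := Real.inner_le_Lp_mul_Lq_of_nonneg (univ : Finset (Fin N)) (f := σ)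
      (g := fun j => max (Φ (R j) y) 0) hp (fun j _ => hσ0 j) (fun j _ => le_max_right _ _)
    have h6 : ∑ j, σ j * Φ (R j) y ≤ ∑ j, σ j * max (Φ (R j) y) 0 :=
      sum_le_sum fun j _ => mul_le_mul_of_nonneg_left (le_max_left _ _) (hσ0 j)
    rw [h4]
    refine h6.trans (h5.trans ((mul_le_mul_of_nonneg_left h1 hP0).trans (le_of_eq ?_)))
    ring
  have h7 := hw₂ N σ' _ _ (by positivity) (by positivity) key
  have h8 : schattenNorm q Y = (∑ j, max (σ' j) 0 ^ q) ^ (1 / q) := by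
    simp_rw [max_eq_left (hσ'0 _)]
    rfl
  rw [h8]
  refine h7.trans (le_of_eq ?_)
  have h9 := mul_self_sqrt hN0
  linear_combination (-(P * G * a * (N : ℝ) ^ (1 / q))) * h9

theorem main (c : ℝ) (hc0 : 0 < c) (hc1 : c < 1) (p q : ℝ) (hp1 : 1 < p) (hp2 : p ≤ 2)
    (hq : 2 ≤ q) : ∃ C : ℝ, 0 ≤ C ∧ ∀ N n : ℕ, 1 ≤ N → (1 - c) * (N : ℝ) ^ 2 ≤ n →
      (n : ℝ) ≤ (N : ℝ) ^ 2 - c * (N : ℝ) ^ (max (3 - 2 / p) (1 + 2 / q)) + 1 →
      ∃ S : Matrix (Fin N) (Fin N) ℝ →ₗ[ℝ] Matrix (Fin N) (Fin N) ℝ,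
        finrank ℝ (LinearMap.range S) < n ∧ ∀ X, schattenNorm q (X - S X) ≤
          C * (N : ℝ) ^ (max (3 - 2 / p) (1 + 2 / q) / 2 - 2) * √((N : ℝ) ^ 2 - n + 1)
            * schattenNorm p X := by
  set l := max (3 - 2 / p) (1 + 2 / q) with hl
  have hp0 : 0 < p := by linarith
  have hq0 : 0 < q := by linarith
  have hc2 : 0 < 1 - c := by linarith
  have hsc : 0 < √c := sqrt_pos.mpr hc0
  have hl0 : 0 ≤ l := le_max_of_le_right (by positivity)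
  -- the trivial choice `S = 0`
  have triv : ∀ (C : ℝ) (N n : ℕ), 1 ≤ N → (1 - c) * (N : ℝ) ^ 2 ≤ n →
      1 ≤ C * (N : ℝ) ^ (l / 2 - 2) * √((N : ℝ) ^ 2 - n + 1) →
      ∃ S : Matrix (Fin N) (Fin N) ℝ →ₗ[ℝ] Matrix (Fin N) (Fin N) ℝ,
        finrank ℝ (LinearMap.range S) < n ∧ ∀ X, schattenNorm q (X - S X) ≤
          C * (N : ℝ) ^ (l / 2 - 2) * √((N : ℝ) ^ 2 - n + 1) * schattenNorm p X := by
    intro C N n hN h1 h2
    have hN0 : (0 : ℝ) < N := by exact_mod_cast hN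
    have hn : (0 : ℝ) < n := lt_of_lt_of_le (by positivity) h1
    have hn' : 0 < n := by exact_mod_cast hn
    refine ⟨0, by rwa [LinearMap.range_zero, finrank_bot], fun X => ?_⟩
    rw [LinearMap.zero_apply, sub_zero]
    refine (schattenNorm_mono hp0 (hp2.trans hq) X).trans ?_
    exact le_mul_of_one_le_left (schattenNorm_nonneg p X) h2
  have hpow : ∀ N : ℕ, 1 ≤ N → (N : ℝ) ^ (l / 2 - 2) = (N : ℝ) ^ (l / 2) / (N : ℝ) ^ 2 := by
    intro N hN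
    have hN0 : (0 : ℝ) < N := by exact_mod_cast hN
    rw [rpow_sub hN0, rpow_two]
  have hlow : ∀ N n : ℕ, 1 ≤ N → (n : ℝ) ≤ (N : ℝ) ^ 2 - c * (N : ℝ) ^ l + 1 →
      √c * (N : ℝ) ^ (l / 2) ≤ √((N : ℝ) ^ 2 - n + 1) := by
    intro N n hN h
    have hN0 : (0 : ℝ) < N := by exact_mod_cast hN
    refine le_sqrt_of_sq_le ?_
    rw [mul_pow, sq_sqrt hc0.le, ← rpow_natCast, ← rpow_mul hN0.le]
    norm_num
    linarith
  by_cases hl2 : 2 ≤ l
  · refine ⟨1 / √c, by positivity, fun N n hN h1 h2 => triv _ N n hN h1 ?_⟩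
    have hN1 : (1 : ℝ) ≤ N := by exact_mod_cast hN
    have h3 := hlow N n hN h2
    have h4 : (N : ℝ) ≤ (N : ℝ) ^ (l / 2) := by
      calc (N : ℝ) = (N : ℝ) ^ (1 : ℝ) := (rpow_one _).symm
        _ ≤ _ := rpow_le_rpow_of_exponent_le hN1 (by linarith)
    rw [hpow N hN]
    calc (1 : ℝ) = 1 / √c * (N / (N : ℝ) ^ 2) * (√c * N) := by field_simp
      _ ≤ _ := by
        have : √c * N ≤ √((N : ℝ) ^ 2 - n + 1) :=
          (mul_le_mul_of_nonneg_left h4 hsc.le).trans h3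
        gcongr
  have hp3 : p < 2 := by
    by_contra h
    have : p = 2 := le_antisymm hp2 (not_lt.mp h)
    exact hl2 (le_max_of_le_left (by rw [this]; norm_num))
  have hq3 : 2 < q := by
    by_contra h
    have : q = 2 := le_antisymm (not_lt.mp h) hq
    exact hl2 (le_max_of_le_right (by rw [this]; norm_num))
  have hpp := Real.HolderConjugate.conjExponent hp1
  set p' := Real.conjExponent p with hp'
  have hp'1 : 1 / p' = 1 - 1 / p := by
    have := hpp.inv_add_inv_eq_one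
    rw [one_div, one_div]; linarith
  have hp'2 : 2 < p' := by
    rw [hp', Real.conjExponent, lt_div_iff₀ (by linarith)]; linarith
  obtain ⟨Z₁, Z₂, hZ₁, hZ₂, h⟩ := main_aux p p' q hpp hp'2 hq3
  set C₁ := 6200 * (4 / (1 - c) ^ 2) * (Z₂ + Z₁ + 1 / √c) with hC₁
  have hC₁0 : 0 ≤ C₁ := by positivity
  refine ⟨C₁ + 2 / (1 - c), by positivity, fun N n hN h1 h2 => ?_⟩
  have hN1 : (1 : ℝ) ≤ N := by exact_mod_cast hN
  have hN0 : (0 : ℝ) < N := by linarith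
  have hE1 : 1 ≤ (N : ℝ) ^ (l / 2) := one_le_rpow hN1 (by linarith)
  have hnN : n ≤ N * N := by
    have h3 : 0 < c * (N : ℝ) ^ l := by positivity
    have h4 : (n : ℝ) < ((N * N + 1 : ℕ) : ℝ) := by push_cast; nlinarith
    have h5 : n < N * N + 1 := by exact_mod_cast h4
    omega
  have hnN' : (n : ℝ) ≤ (N : ℝ) ^ 2 := by
    rw [sq]; exact_mod_cast hnN
  have hT1 : 1 ≤ √((N : ℝ) ^ 2 - n + 1) := one_le_sqrt.mpr (by linarith)
  by_cases hsmall : (1 - c) * (N : ℝ) ^ 2 < 2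
  · refine triv _ N n hN h1 ?_
    rw [hpow N hN]
    calc (1 : ℝ) ≤ 2 / (1 - c) * (1 / (N : ℝ) ^ 2) * 1 := by
          rw [mul_one, div_mul_div_comm, le_div_iff₀ (by positivity)]; linarith
      _ ≤ _ := by gcongr; linarith
  push Not at hsmall
  have hn2 : 2 ≤ n := by exact_mod_cast hsmall.trans h1
  obtain ⟨d, rfl⟩ : ∃ d, n = d + 1 := ⟨n - 1, by omega⟩
  obtain ⟨m, hm⟩ : ∃ m, N * N = d + m := ⟨N * N - d, by omega⟩
  obtain ⟨S, hS, hX⟩ := h N d m hN (by omega) (by omega) hm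
  refine ⟨S, by omega, fun X => (hX X).trans ?_⟩
  refine mul_le_mul_of_nonneg_right ?_ (schattenNorm_nonneg p X)
  have hM : (N : ℝ) ^ 2 = d + m := by rw [sq]; exact_mod_cast hm
  have hmT : (N : ℝ) ^ 2 - ((d + 1 : ℕ) : ℝ) + 1 = m := by push_cast; linarith
  have h3 := hlow N (d + 1) hN h2
  rw [hmT] at h3 hT1 ⊢
  rw [hpow N hN]
  set E := (N : ℝ) ^ (l / 2) with hE
  set t := √(m : ℝ) with ht
  have b1 : √N * (N : ℝ) ^ (1 / p') ≤ E := by
    rw [sqrt_eq_rpow, ← rpow_add hN0]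
    refine rpow_le_rpow_of_exponent_le hN1 ?_
    have : 3 - 2 / p ≤ l := le_max_left _ _
    have e : 2 / p = 2 * (1 / p) := by ring
    linarith
  have b2 : √N * (N : ℝ) ^ (1 / q) ≤ E := by
    rw [sqrt_eq_rpow, ← rpow_add hN0]
    refine rpow_le_rpow_of_exponent_le hN1 ?_
    have : 1 + 2 / q ≤ l := le_max_right _ _
    have e : 2 / q = 2 * (1 / q) := by ring
    linarith
  have b3 : E ≤ 1 / √c * t := by
    rw [one_div, ← div_eq_inv_mul, le_div_iff₀ hsc]; linarith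
  have hd : (1 - c) * (N : ℝ) ^ 2 / 2 ≤ d := by
    push_cast at h1; linarith
  have b4 : ((d : ℝ) + m) / (d : ℝ) ^ 2 ≤ 4 / (1 - c) ^ 2 / (N : ℝ) ^ 2 := by
    rw [← hM]
    calc (N : ℝ) ^ 2 / (d : ℝ) ^ 2 ≤ (N : ℝ) ^ 2 / ((1 - c) * (N : ℝ) ^ 2 / 2) ^ 2 := by gcongr
      _ = _ := by field_simp; norm_num
  have b5 : Z₂ * t * (√N * (N : ℝ) ^ (1 / p')) + Z₁ * t * (√N * (N : ℝ) ^ (1 / q))
      + (√N * (N : ℝ) ^ (1 / p')) * (√N * (N : ℝ) ^ (1 / q))
      ≤ Z₂ * t * E + Z₁ * t * E + E * (1 / √c * t) := by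
    have := b2.trans b3
    gcongr
  calc _ ≤ 6200 * (4 / (1 - c) ^ 2 / (N : ℝ) ^ 2)
        * (Z₂ * t * E + Z₁ * t * E + E * (1 / √c * t)) := by gcongr
    _ = C₁ * (E / (N : ℝ) ^ 2) * t := by rw [hC₁]; ring
    _ ≤ _ := by gcongr; linarith [div_pos (two_pos (α := ℝ)) hc2]

end Pool.Agent.MP_6a785f_an
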