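import Mathlib
import Pool.Agent.MP_6a785f_an.Defs
import Pool.Agent.MP_6a785f_an.Main

set_option autoImplicit false

namespace Pool.Agent.MP_6a785f_an

theorem final (c : ℝ) (hc0 : 0 < c) (hc1 : c < 1) (p q : ℝ) (hp1 : 1 < p) (hp2 : p ≤ 2)
    (hq : 2 ≤ q) :
    ∃ C : ℝ, ∀ N n : ℕ, 1 ≤ N → (1 - c) * (N : ℝ) ^ 2 ≤ (n : ℝ) →
      (n : ℝ) ≤ (N : ℝ) ^ 2 - c * (N : ℝ) ^ (max (3 - 2 / p) (1 + 2 / q)) + 1 →
      approxNumberId N p q n ≤ ENNReal.ofReal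
        (C * (N : ℝ) ^ (max (3 - 2 / p) (1 + 2 / q) / 2 - 2) * √((N : ℝ) ^ 2 - (n : ℝ) + 1)) := by
  obtain ⟨C, hC, h⟩ := main c hc0 hc1 p q hp1 hp2 hq
  refine ⟨C, fun N n hN h1 h2 => ?_⟩
  obtain ⟨S, hS, hX⟩ := h N n hN h1 h2
  refine (iInf₂_le S hS).trans (iSup₂_le fun A hA => ENNReal.ofReal_le_ofReal ?_)
  refine (hX A).trans (mul_le_of_le_one_right ?_ hA)
  positivity

end Pool.Agent.MP_6a785f_an
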